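import Pool.Agent.W213.MG.Stm

set_option autoImplicit false

namespace Pool.Agent.W210.MGARI

open Pool.Agent.W213.MG (rho U ARI)

/-- the sum with an arbitrary number of terms -/
def S (f : ℕ → Bool) (N : ℕ) : ℕ := ∑ r ∈ Finset.range N, (2 ^ rho f r - 1)

lemma rho_zero (f : ℕ → Bool) : rho f 0 = 0 := by simp [rho]

lemma rho_succ (f : ℕ → Bool) (r : ℕ) :
    rho f (r + 1) = rho f r + (if f (r + 1) = false then 1 else 0) := by
  unfold rho
  rw [← Finset.insert_Icc_right_eq_Icc_add_one (by omega), Finset.filter_insert]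
  split_ifs with h
  · rw [Finset.card_insert_of_notMem (by simp)]
  · simp

lemma rho_congr (f g : ℕ → Bool) (r : ℕ) (h : ∀ y, y ≤ r → f y = g y) : rho f r = rho g r := by
  induction r with
  | zero => rw [rho_zero, rho_zero]
  | succ r ih =>
    rw [rho_succ, rho_succ, ih (fun y hy => h y (by omega)), h (r + 1) le_rfl]

lemma S_congr (f g : ℕ → Bool) (N : ℕ) (h : ∀ y, y < N → f y = g y) : S f N = S g N := by
  unfold S
  refine Finset.sum_congr rfl fun r hr => ?_
  rw [rho_congr f g r (fun y hy => h y (by have := Finset.mem_range.mp hr; omega))]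

lemma S_succ (f : ℕ → Bool) (N : ℕ) : S f (N + 1) = S f N + (2 ^ rho f N - 1) := by
  unfold S
  rw [Finset.sum_range_succ]

/-- realisable with all lengths `≥ L + 1` -/
def Q (p L v : ℕ) : Prop := ∀ N, L ≤ N → ∃ f : ℕ → Bool, S f (N + 1) = v ∧ rho f N = p

lemma Q_zero : Q 0 0 0 := by
  intro N _
  have h : ∀ r, rho (fun _ => true) r = 0 := by
    intro r; simp [rho]
  refine ⟨fun _ => true, ?_, h N⟩
  unfold S
  simp [h]

lemma Q_mono {p L L' v : ℕ} (h : Q p L v) (hL : L ≤ L') : Q p L' v :=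
  fun N hN => h N (hL.trans hN)

lemma Q_stay {p L v : ℕ} (h : Q p L v) : Q p (L + 1) (v + (2 ^ p - 1)) := by
  intro N hN
  obtain ⟨M, rfl⟩ : ∃ M, N = M + 1 := ⟨N - 1, by omega⟩
  obtain ⟨f, hf, hr⟩ := h M (by omega)
  refine ⟨Function.update f (M + 1) true, ?_, ?_⟩
  · have hc : ∀ y, y < M + 1 → Function.update f (M + 1) true y = f y := by
      intro y hy; rw [Function.update_of_ne (by omega)]
    rw [S_succ, S_congr _ f (M + 1) hc, hf, rho_succ,
      rho_congr _ f M (fun y hy => hc y (by omega)), hr]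
    simp
  · have hc : ∀ y, y < M + 1 → Function.update f (M + 1) true y = f y := by
      intro y hy; rw [Function.update_of_ne (by omega)]
    rw [rho_succ, rho_congr _ f M (fun y hy => hc y (by omega)), hr]
    simp

lemma Q_up {p L v : ℕ} (h : Q p L v) : Q (p + 1) (L + 1) (v + (2 ^ (p + 1) - 1)) := by
  intro N hN
  obtain ⟨M, rfl⟩ : ∃ M, N = M + 1 := ⟨N - 1, by omega⟩
  obtain ⟨f, hf, hr⟩ := h M (by omega)
  refine ⟨Function.update f (M + 1) false, ?_, ?_⟩
  · have hc : ∀ y, y < M + 1 → Function.update f (M + 1) false y = f y := by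
      intro y hy; rw [Function.update_of_ne (by omega)]
    rw [S_succ, S_congr _ f (M + 1) hc, hf, rho_succ,
      rho_congr _ f M (fun y hy => hc y (by omega)), hr]
    simp
  · have hc : ∀ y, y < M + 1 → Function.update f (M + 1) false y = f y := by
      intro y hy; rw [Function.update_of_ne (by omega)]
    rw [rho_succ, rho_congr _ f M (fun y hy => hc y (by omega)), hr]
    simp

def B : ℕ → ℕ
  | 0 => 0
  | p + 1 => B p + (2 ^ (p + 1) - 1)

lemma B_eq (p : ℕ) : B p + p + 2 = 2 ^ (p + 1) := by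
  induction p with
  | zero => simp [B]
  | succ p ih =>
    have : 1 ≤ 2 ^ (p + 1) := Nat.one_le_two_pow
    rw [B, pow_succ 2 (p + 1)]
    omega

lemma claimA (p : ℕ) : Q p p (B p) := by
  induction p with
  | zero => exact Q_zero
  | succ p ih => exact Q_up ih

lemma claimB (p : ℕ) : ∀ x, x ≤ 2 * (2 ^ p - 1) → Q p (2 * p + 1) (B p + x) := by
  induction p with
  | zero =>
    intro x hx
    have : x = 0 := by simpa using hx
    subst this
    exact Q_mono Q_zero (by omega)
  | succ p ih =>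
    intro x hx
    have h1 : 1 ≤ 2 ^ p := Nat.one_le_two_pow
    have h2 : 2 ^ (p + 1) = 2 * 2 ^ p := by rw [pow_succ]; ring
    rcases lt_or_ge x (2 ^ (p + 1) - 1) with hlt | hge
    · have := Q_up (ih x (by omega))
      have e : B p + x + (2 ^ (p + 1) - 1) = B (p + 1) + x := by rw [B]; omega
      rw [e] at this
      exact Q_mono this (by omega)
    · rcases lt_or_ge x (2 * (2 ^ (p + 1) - 1)) with hlt2 | hge2
      · have := Q_stay (Q_up (ih (x - (2 ^ (p + 1) - 1)) (by omega)))
        have e : B p + (x - (2 ^ (p + 1) - 1)) + (2 ^ (p + 1) - 1) + (2 ^ (p + 1) - 1)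
            = B (p + 1) + x := by rw [B]; omega
        rw [e] at this
        exact Q_mono this (by omega)
      · have hx2 : x = 2 * (2 ^ (p + 1) - 1) := by omega
        have := Q_stay (Q_stay (claimA (p + 1)))
        have e : B (p + 1) + (2 ^ (p + 1) - 1) + (2 ^ (p + 1) - 1) = B (p + 1) + x := by omega
        rw [e] at this
        exact Q_mono this (by omega)

lemma find_p (P u : ℕ) (h : u < B (P + 1)) : ∃ p, p ≤ P ∧ B p ≤ u ∧ u < B (p + 1) := by
  induction P with
  | zero => exact ⟨0, le_rfl, by simp [B], h⟩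
  | succ P ih =>
    rcases lt_or_ge u (B (P + 1)) with h1 | h1
    · obtain ⟨p, hp, h2, h3⟩ := ih h1
      exact ⟨p, by omega, h2, h3⟩
    · exact ⟨P + 1, le_rfl, h1, h⟩

lemma core (n u : ℕ) (hn : 4 ≤ n) (hu : u + n / 2 + 2 ≤ 2 ^ (n / 2)) :
    ∃ f : ℕ → Bool, S f (n - 2) = u := by
  obtain ⟨k, hk⟩ : ∃ k, n / 2 = k + 2 := ⟨n / 2 - 2, by omega⟩
  have hB := B_eq (k + 1)
  rw [hk] at hu
  have h1 : u < B (k + 1) := by
    have : 2 ^ (k + 1 + 1) = 2 ^ (k + 2) := rfl
    omega
  obtain ⟨p, hp, h2, h3⟩ := find_p k u h1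
  have h4 : 1 ≤ 2 ^ p := Nat.one_le_two_pow
  have h5 : 2 ^ (p + 1) = 2 * 2 ^ p := by rw [pow_succ]; ring
  have h6 : B (p + 1) = B p + (2 ^ (p + 1) - 1) := rfl
  obtain ⟨f, hf, -⟩ := claimB p (u - B p) (by omega) (n - 3) (by omega)
  refine ⟨f, ?_⟩
  rw [show n - 2 = n - 3 + 1 by omega, hf]
  omega

theorem main : ARI := fun n u hn hu => core n u hn hu

end Pool.Agent.W210.MGARI
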